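import Pool.Agent.Helper68.LM2.Geo
import Pool.Agent.Helper29.LM.M_PH
import Pool.Agent.Helper4.LM.M_BBC

/-!
# Project LM2, module LOWD: pointwise domination of the low frequency part
-/

set_option autoImplicit false

open MeasureTheory Set Filter Topology
open scoped ENNReal RealInnerProductSpace

namespace Pool.Agent.Helper71.LM2

open Pool.Agent.Helper68.LM2 Pool.Agent.Helper68.LM

private theorem two_pos_z (k : ℤ) : (0 : ℝ) < (2 : ℝ) ^ k := zpow_pos (by norm_num) k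

/-- the average in the second variable over the interval of half length `2^(m-1)` -/
private noncomputable def Aa (gt : ℝ × ℝ → ℝ) (m : ℤ) (b₀ a : ℝ) : ℝ :=
  ((2 : ℝ) ^ m)⁻¹ * ∫ y in Icc (b₀ - (2 : ℝ) ^ (m - 1)) (b₀ + (2 : ℝ) ^ (m - 1)), gt (a, y)

private theorem Aa_meas (gt : ℝ × ℝ → ℝ) (hm : Measurable gt) (m : ℤ) (b₀ : ℝ) :
    Measurable (Aa gt m b₀) := by
  have h1 : StronglyMeasurable (fun a : ℝ =>
      ∫ y in Icc (b₀ - (2 : ℝ) ^ (m - 1)) (b₀ + (2 : ℝ) ^ (m - 1)), gt (a, y)) :=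
    StronglyMeasurable.integral_prod_right' (f := gt) hm.stronglyMeasurable
  exact (h1.measurable.const_mul _)

private theorem Aa_bound (gt : ℝ × ℝ → ℝ) (K : ℝ) (hK : ∀ z, |gt z| ≤ K) (h0 : ∀ z, 0 ≤ gt z)
    (m : ℤ) (b₀ a : ℝ) : 0 ≤ Aa gt m b₀ a ∧ Aa gt m b₀ a ≤ K := by
  have hp := two_pos_z m
  have hp1 := two_pos_z (m - 1)
  have hm2 : (2 : ℝ) ^ m = 2 * (2 : ℝ) ^ (m - 1) := by
    rw [show m = (m - 1) + 1 by ring, zpow_add_one₀ (by norm_num)]
    simp [mul_comm]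
  constructor
  · exact mul_nonneg (inv_nonneg.2 hp.le) (integral_nonneg fun y => h0 _)
  · unfold Aa
    have h2 : ∫ y in Icc (b₀ - (2 : ℝ) ^ (m - 1)) (b₀ + (2 : ℝ) ^ (m - 1)), gt (a, y) ≤
        K * (2 : ℝ) ^ m := by
      have h3 : ‖∫ y in Icc (b₀ - (2 : ℝ) ^ (m - 1)) (b₀ + (2 : ℝ) ^ (m - 1)), gt (a, y)‖ ≤
          K * volume.real (Icc (b₀ - (2 : ℝ) ^ (m - 1)) (b₀ + (2 : ℝ) ^ (m - 1))) := by
        apply norm_setIntegral_le_of_norm_le_const
        · rw [Real.volume_Icc]; exact ENNReal.ofReal_lt_top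
        · intro y _; rw [Real.norm_eq_abs]; exact hK _
      rw [Real.volume_real_Icc_of_le (by linarith)] at h3
      have h4 : (b₀ + (2 : ℝ) ^ (m - 1) - (b₀ - (2 : ℝ) ^ (m - 1))) = (2 : ℝ) ^ m := by
        rw [hm2]; ring
      rw [h4] at h3
      exact (le_abs_self _).trans (by rw [← Real.norm_eq_abs]; exact h3)
    calc ((2 : ℝ) ^ m)⁻¹ * ∫ y in Icc (b₀ - (2 : ℝ) ^ (m - 1)) (b₀ + (2 : ℝ) ^ (m - 1)), gt (a, y)
        ≤ ((2 : ℝ) ^ m)⁻¹ * (K * (2 : ℝ) ^ m) :=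
          mul_le_mul_of_nonneg_left h2 (inv_nonneg.2 hp.le)
      _ = K := by field_simp

/-- the averages of the shifted dyadic expectations -/
private noncomputable def Bb (gt : ℝ × ℝ → ℝ) (m : ℤ) (b₀ a σ : ℝ) : ℝ :=
  E1 m (fun y => gt (a, y - σ)) (b₀ + σ)

private theorem Bb_meas (gt : ℝ × ℝ → ℝ) (hm : Measurable gt) (m : ℤ) (b₀ : ℝ) :
    Measurable (fun w : ℝ × ℝ => Bb gt m b₀ w.1 w.2) := by
  have hset : MeasurableSet {q : (ℝ × ℝ) × ℝ | ⌊q.2 / (2 : ℝ) ^ m⌋ = ⌊(b₀ + q.1.2) / (2 : ℝ) ^ m⌋} := by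
    apply measurableSet_eq_fun
    · exact Int.measurable_floor.comp (measurable_snd.div_const _)
    · exact Int.measurable_floor.comp
        (((measurable_const.add (measurable_snd.comp measurable_fst))).div_const _)
  have hf : Measurable (fun q : (ℝ × ℝ) × ℝ => gt (q.1.1, q.2 - q.1.2)) :=
    hm.comp ((measurable_fst.comp measurable_fst).prodMk
      (measurable_snd.sub (measurable_snd.comp measurable_fst)))
  have h1 : StronglyMeasurable (fun w : ℝ × ℝ => ∫ y, ({q : (ℝ × ℝ) × ℝ |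
      ⌊q.2 / (2 : ℝ) ^ m⌋ = ⌊(b₀ + q.1.2) / (2 : ℝ) ^ m⌋}.indicator
        (fun q : (ℝ × ℝ) × ℝ => gt (q.1.1, q.2 - q.1.2))) (w, y)) :=
    StronglyMeasurable.integral_prod_right' (hf.indicator hset).stronglyMeasurable
  have h2 : (fun w : ℝ × ℝ => Bb gt m b₀ w.1 w.2) = fun w : ℝ × ℝ => ((2 : ℝ) ^ m)⁻¹ *
      ∫ y, ({q : (ℝ × ℝ) × ℝ |
      ⌊q.2 / (2 : ℝ) ^ m⌋ = ⌊(b₀ + q.1.2) / (2 : ℝ) ^ m⌋}.indicator
        (fun q : (ℝ × ℝ) × ℝ => gt (q.1.1, q.2 - q.1.2))) (w, y) := by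
    funext w
    unfold Bb E1
    have hc : MeasurableSet (cell m (b₀ + w.2)) := by
      unfold cell
      apply measurableSet_eq_fun
      · exact Int.measurable_floor.comp (measurable_id.div_const _)
      · exact measurable_const
    rw [← integral_indicator hc]
    congr 2
  rw [h2]
  exact h1.measurable.const_mul _

private theorem BR_shift (gt : ℝ × ℝ → ℝ) (hg : BR gt) (σ : ℝ) :
    BR (fun z => gt (z.1, z.2 - σ)) := by
  obtain ⟨hm, K, hK, hs⟩ := hg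
  refine ⟨hm.comp (measurable_fst.prodMk (measurable_snd.sub_const σ)), K + |σ|, ?_, ?_⟩
  · intro z; exact (hK _).trans (by linarith [abs_nonneg σ])
  · intro z hz
    apply hs
    have h1 : ‖z‖ ≤ ‖((z.1, z.2 - σ) : ℝ × ℝ)‖ + |σ| := by
      have h2 : z = (z.1, z.2 - σ) + ((0 : ℝ), σ) := by
        ext <;> simp
      have h3 : ‖((0 : ℝ), σ)‖ = |σ| := by
        rw [Prod.norm_def]; simp
      calc ‖z‖ = ‖((z.1, z.2 - σ) : ℝ × ℝ) + ((0 : ℝ), σ)‖ := by rw [← h2]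
        _ ≤ _ := (norm_add_le _ _).trans (by rw [h3])
    linarith

/-- integrability of bounded measurable functions on finite measures -/
private theorem int_of_bdd {α : Type*} [MeasurableSpace α] {μ : Measure α} [IsFiniteMeasure μ]
    {f : α → ℝ} (hf : Measurable f) (K : ℝ) (hK : ∀ x, |f x| ≤ K) : Integrable f μ :=
  Integrable.of_bound hf.aestronglyMeasurable K (Eventually.of_forall fun x => by
    rw [Real.norm_eq_abs]; exact hK x)

private theorem rho_int (τ : ℕ → ℝ) (m₀ n : ℕ) (f : ℝ → ℝ) (hf : Measurable f) (K : ℝ)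
    (hK : ∀ x, |f x| ≤ K) :
    ∫ w, f w ∂(rho τ m₀ n) = ∫ t in Icc (τ (n + 1)) (τ n), ∫ α in Icc (-1 : ℝ) 1,
      f (t + (2⁻¹ : ℝ) ^ (m₀ + n) * α) := by
  have hmap : Measurable (fun w : ℝ × ℝ => w.1 + (2⁻¹ : ℝ) ^ (m₀ + n) * w.2) := by fun_prop
  unfold rho
  rw [integral_map hmap.aemeasurable hf.aestronglyMeasurable]
  rw [integral_prod]
  exact int_of_bdd (hf.comp hmap) K (fun x => hK _)

/-- `Sm` in orthonormal coordinates -/
private theorem Sm_le (hCO : StCO) {C₀ : ℝ} (hph : ∀ x, ph x ≤ C₀)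
    (hph0 : ∀ x, 0 ≤ ph x) (hph1 : ∀ x, 1 ≤ ‖x‖ → ph x = 0) (hphc : Continuous ph)
    (u v : Pl) (hu : ‖u‖ = 1) (hv : ‖v‖ = 1) (huv : ⟪u, v⟫ = 0)
    (g : Pl → ℝ) (hg : BB g) (h0 : ∀ x, 0 ≤ g x) (s a b : ℝ) :
    Sm s g (a • u + b • v) ≤ C₀ * ∫ α in Icc (-1 : ℝ) 1, ∫ β in Icc (-1 : ℝ) 1,
      g ((a - s * α) • u + (b - s * β) • v) := by
  obtain ⟨hmp, -, hcoord, -, -, -⟩ := hCO u v hu hv huv
  obtain ⟨hgm, K, hK, hsup⟩ := hg
  set T : ℝ × ℝ → Pl := fun z => z.1 • u + z.2 • v with hT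
  have hTm : Measurable T := hmp.measurable
  have e1 : Sm s g (a • u + b • v) = ∫ z : ℝ × ℝ, ph (T z) * g (a • u + b • v - s • T z) := by
    unfold Sm
    have hF : Measurable (fun z : Pl => ph z * g (a • u + b • v - s • z)) :=
      hphc.measurable.mul (hgm.comp (measurable_const.sub (measurable_id.const_smul s)))
    conv_lhs => rw [← hmp.map_eq]
    rw [integral_map hTm.aemeasurable hF.aestronglyMeasurable]
  have e2 : ∀ z : ℝ × ℝ, a • u + b • v - s • T z = (a - s * z.1) • u + (b - s * z.2) • v := by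
    intro z
    simp only [hT, smul_add, smul_smul, sub_smul]
    abel
  have hG : Measurable (fun z : ℝ × ℝ => g ((a - s * z.1) • u + (b - s * z.2) • v)) := by
    apply hgm.comp
    exact Measurable.add ((measurable_const.sub (measurable_fst.const_mul s)).smul_const u)
      ((measurable_const.sub (measurable_snd.const_mul s)).smul_const v)
  rw [e1]
  have hfin : volume (Icc (-1 : ℝ) 1 ×ˢ Icc (-1 : ℝ) 1) < ⊤ := by
    rw [Measure.volume_eq_prod, Measure.prod_prod, Real.volume_Icc]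
    exact ENNReal.mul_lt_top ENNReal.ofReal_lt_top ENNReal.ofReal_lt_top
  have hmS : MeasurableSet (Icc (-1 : ℝ) 1 ×ˢ Icc (-1 : ℝ) 1 : Set (ℝ × ℝ)) :=
    measurableSet_Icc.prod measurableSet_Icc
  have hint : IntegrableOn (fun z : ℝ × ℝ => g ((a - s * z.1) • u + (b - s * z.2) • v))
      (Icc (-1 : ℝ) 1 ×ˢ Icc (-1 : ℝ) 1) := by
    apply Measure.integrableOn_of_bounded hfin.ne hG.aestronglyMeasurable (M := K)
    exact Eventually.of_forall fun z => by rw [Real.norm_eq_abs]; exact hK _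
  have e3 : ∫ z : ℝ × ℝ, ph (T z) * g (a • u + b • v - s • T z) ≤
      ∫ z : ℝ × ℝ, (Icc (-1 : ℝ) 1 ×ˢ Icc (-1 : ℝ) 1 : Set (ℝ × ℝ)).indicator
        (fun z => C₀ * g ((a - s * z.1) • u + (b - s * z.2) • v)) z := by
    apply integral_mono_of_nonneg
    · exact Eventually.of_forall fun z => mul_nonneg (hph0 _) (h0 _)
    · rw [integrable_indicator_iff hmS]
      exact hint.const_mul C₀
    · refine Eventually.of_forall fun z => ?_
      simp only
      rw [e2]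
      by_cases hz : z ∈ (Icc (-1 : ℝ) 1 ×ˢ Icc (-1 : ℝ) 1 : Set (ℝ × ℝ))
      · rw [indicator_of_mem hz]
        exact mul_le_mul_of_nonneg_right (hph _) (h0 _)
      · rw [indicator_of_notMem hz]
        have hn : 1 ≤ ‖T z‖ := by
          by_contra hlt
          push Not at hlt
          apply hz
          have hsq := (hcoord z.1 z.2).2.2
          have h1 : z.1 ^ 2 + z.2 ^ 2 < 1 := by
            rw [← hsq]
            have := norm_nonneg (T z)
            show ‖T z‖ ^ 2 < 1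
            nlinarith
          refine ⟨⟨?_, ?_⟩, ⟨?_, ?_⟩⟩ <;> nlinarith [sq_nonneg z.1, sq_nonneg z.2]
        rw [hph1 _ hn, zero_mul]
  refine e3.trans ?_
  rw [integral_indicator hmS, integral_const_mul, Measure.volume_eq_prod,
    setIntegral_prod _ (by rw [← Measure.volume_eq_prod]; exact hint)]

/-- the inner integral -/
private theorem inner_le (gt : ℝ × ℝ → ℝ) (hm : Measurable gt) (K : ℝ) (hK : ∀ z, |gt z| ≤ K)
    (h0 : ∀ z, 0 ≤ gt z) (m : ℤ) (s b₀ d a : ℝ) (hs : 0 < s) (h2 : (2 : ℝ) ^ (m - 1) = 2 * s)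
    (hd0 : 0 ≤ d) (hds : d ≤ s) :
    ∫ β in Icc (-1 : ℝ) 1, gt (a, b₀ - d - s * β) ≤ 4 * Aa gt m b₀ a := by
  have hm2 : (2 : ℝ) ^ m = 4 * s := by
    rw [show m = (m - 1) + 1 by ring, zpow_add_one₀ (by norm_num), h2]; ring
  have e1 : ∫ β in Icc (-1 : ℝ) 1, gt (a, b₀ - d - s * β) =
      s⁻¹ * ∫ y in (b₀ - d - s)..(b₀ - d + s), gt (a, y) := by
    rw [integral_Icc_eq_integral_Ioc, ← intervalIntegral.integral_of_le (by norm_num)]
    have := intervalIntegral.integral_comp_sub_mul (a := (-1 : ℝ)) (b := 1)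
      (fun y => gt (a, y)) hs.ne' (b₀ - d)
    rw [this]
    simp only [smul_eq_mul, mul_one, mul_neg, sub_neg_eq_add]
  rw [e1, intervalIntegral.integral_of_le (by linarith), ← integral_Icc_eq_integral_Ioc]
  have e2 : ∫ y in Icc (b₀ - d - s) (b₀ - d + s), gt (a, y) ≤
      ∫ y in Icc (b₀ - (2 : ℝ) ^ (m - 1)) (b₀ + (2 : ℝ) ^ (m - 1)), gt (a, y) := by
    apply setIntegral_mono_set
    · apply Measure.integrableOn_of_bounded (M := K)
      · rw [Real.volume_Icc]; exact ENNReal.ofReal_ne_top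
      · exact (hm.comp (measurable_const.prodMk measurable_id)).aestronglyMeasurable
      · exact Eventually.of_forall fun y => by rw [Real.norm_eq_abs]; exact hK _
    · exact Eventually.of_forall fun y => h0 _
    · apply HasSubset.Subset.eventuallyLE
      apply Icc_subset_Icc <;> rw [h2] <;> linarith
  unfold Aa
  rw [hm2]
  calc s⁻¹ * ∫ y in Icc (b₀ - d - s) (b₀ - d + s), gt (a, y)
      ≤ s⁻¹ * ∫ y in Icc (b₀ - (2 : ℝ) ^ (m - 1)) (b₀ + (2 : ℝ) ^ (m - 1)), gt (a, y) :=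
        mul_le_mul_of_nonneg_left e2 (inv_nonneg.2 hs.le)
    _ = 4 * ((4 * s)⁻¹ *
        ∫ y in Icc (b₀ - (2 : ℝ) ^ (m - 1)) (b₀ + (2 : ℝ) ^ (m - 1)), gt (a, y)) := by
        rw [mul_inv]; ring

theorem hLOWD (hEB : StEB) (hRHO : StRHO) (hAVG : StAVG) (hCO : StCO) (hTAU : StTAU) :
    StLOWD := by
  obtain ⟨hphc, hph0, hph1, -, -, C₀, hC₀, hphC, -⟩ := Pool.Agent.Helper29.LM.hPH
  refine ⟨8 * C₀, by positivity, ?_⟩
  intro P u v c φ m₀ τ hS hL g hg h0 n k M hkM x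
  obtain ⟨hu, hv, huv, hc0, hc1, hφ0, hφc, -⟩ := id hS
  obtain ⟨hseq, hτc, hlev, -⟩ := id hL
  obtain ⟨hanti, hτpos, hτ1, hτge⟩ := hseq
  have hTAU' := hTAU.2 P u v c φ m₀ τ hS hL n
  obtain ⟨hmp, hdec, hcoord, hBR, -, -⟩ := hCO u v hu hv huv
  set gt : ℝ × ℝ → ℝ := fun z => g (z.1 • u + z.2 • v) with hgt
  have hgtBR : BR gt := hBR g hg
  obtain ⟨hgtm, K, hK, -⟩ := id hgtBR
  have hgt0 : ∀ z, 0 ≤ gt z := fun z => h0 _
  have hK0 : 0 ≤ K := (abs_nonneg _).trans (hK (0, 0))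
  set a₀ : ℝ := ⟪x, u⟫ - (2 : ℝ) ^ k * ⟪P, u⟫ with ha₀
  set b₀ : ℝ := ⟪x, v⟫ - (2 : ℝ) ^ k * ⟪P, v⟫ with hb₀
  set m : ℤ := k - (m₀ : ℤ) - (n : ℤ) + 2 with hm
  set s : ℝ := (2 : ℝ) ^ (k - (m₀ : ℤ) - (n : ℤ)) with hs
  set η : ℝ := (2⁻¹ : ℝ) ^ (m₀ + n) with hη
  have hspos : 0 < s := two_pos_z _
  have hkpos : (0 : ℝ) < (2 : ℝ) ^ k := two_pos_z _
  have hsη : s = (2 : ℝ) ^ k * η := by
    rw [hs, hη, show k - (m₀ : ℤ) - (n : ℤ) = k - ((m₀ + n : ℕ) : ℤ) by push_cast; ring,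
      zpow_sub₀ (by norm_num), zpow_natCast, inv_pow]
    rfl
  have h2s : (2 : ℝ) ^ (m - 1) = 2 * s := by
    rw [hm, hs, show k - (m₀ : ℤ) - (n : ℤ) + 2 - 1 = (k - (m₀ : ℤ) - (n : ℤ)) + 1 by ring,
      zpow_add_one₀ (by norm_num)]
    ring
  have hmM : m ≤ M := by
    have : (0 : ℤ) ≤ m₀ := Int.natCast_nonneg _
    have : (0 : ℤ) ≤ n := Int.natCast_nonneg _
    omega
  have hJ : τ (n + 1) ≤ τ n := (hanti (Nat.lt_succ_self n)).le
  have hJc : Icc (τ (n + 1)) (τ n) ⊆ Icc 0 c := by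
    apply Icc_subset_Icc (hτpos _).le
    exact (hanti.antitone (Nat.zero_le n)).trans hτc.le
  -- the left hand side
  have hcm : AEMeasurable (curve P u v φ) (volume.restrict (Icc (τ (n + 1)) (τ n))) := by
    apply ContinuousOn.aemeasurable _ measurableSet_Icc
    unfold curve
    have hφ' : ContinuousOn φ (Icc (τ (n + 1)) (τ n)) := hφc.mono hJc
    exact (continuousOn_const.add (continuousOn_id.smul continuousOn_const)).add
      (hφ'.smul continuousOn_const)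
  have hSmBB : BB (Sm s g) := (Helper4.LM.hBBC Helper29.LM.hPH).2.1 g s hg
  have eL : Av (nu P u v φ τ n) ((2 : ℝ) ^ k) (Sm s g) x =
      ∫ t in Icc (τ (n + 1)) (τ n), Sm s g (x - (2 : ℝ) ^ k • curve P u v φ t) := by
    unfold Av nu arcMeasure
    have hF : Measurable (fun y : Pl => Sm s g (x - (2 : ℝ) ^ k • y)) :=
      hSmBB.1.comp (measurable_const.sub (measurable_const_smul _))
    rw [integral_map hcm hF.aestronglyMeasurable]
  have ept : ∀ t : ℝ, x - (2 : ℝ) ^ k • curve P u v φ t =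
      (a₀ - (2 : ℝ) ^ k * t) • u + (b₀ - (2 : ℝ) ^ k * φ t) • v := by
    intro t
    have hx := hdec x
    have hP := hdec P
    have e1 : x - (2 : ℝ) ^ k • curve P u v φ t =
        (⟪x, u⟫ • u + ⟪x, v⟫ • v) - (2 : ℝ) ^ k • ((⟪P, u⟫ • u + ⟪P, v⟫ • v) + t • u + φ t • v) := by
      rw [hx, hP]; rfl
    rw [e1, ha₀, hb₀]
    simp only [smul_add, smul_smul, sub_smul]
    abel
  have hAm := Aa_meas gt hgtm m b₀
  have hAb := Aa_bound gt K hK hgt0 m b₀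
  have hAabs : ∀ a, |Aa gt m b₀ a| ≤ K := fun a => by
    rw [abs_of_nonneg (hAb a).1]; exact (hAb a).2
  -- pointwise bound
  have hpt : ∀ t ∈ Icc (τ (n + 1)) (τ n), Sm s g (x - (2 : ℝ) ^ k • curve P u v φ t) ≤
      4 * C₀ * ∫ α in Icc (-1 : ℝ) 1, Aa gt m b₀ (a₀ - (2 : ℝ) ^ k * (t + η * α)) := by
    intro t ht
    rw [ept t]
    refine (Sm_le hCO hphC hph0 hph1 hphc u v hu hv huv g hg h0 s _ _).trans ?_
    have hφt := hTAU' t ht
    have hd0 : 0 ≤ (2 : ℝ) ^ k * φ t := mul_nonneg hkpos.le hφt.1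
    have hds : (2 : ℝ) ^ k * φ t ≤ s := by
      rw [hsη]; exact mul_le_mul_of_nonneg_left hφt.2 hkpos.le
    have e4 : ∫ α in Icc (-1 : ℝ) 1, ∫ β in Icc (-1 : ℝ) 1,
        g ((a₀ - (2 : ℝ) ^ k * t - s * α) • u + (b₀ - (2 : ℝ) ^ k * φ t - s * β) • v) ≤
        ∫ α in Icc (-1 : ℝ) 1, 4 * Aa gt m b₀ (a₀ - (2 : ℝ) ^ k * (t + η * α)) := by
      apply integral_mono_of_nonneg
      · exact Eventually.of_forall fun α => integral_nonneg fun β => h0 _
      · apply int_of_bdd (K := 4 * K)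
        · exact (hAm.comp (by fun_prop)).const_mul 4
        · intro α
          rw [abs_mul]
          have := hAabs (a₀ - (2 : ℝ) ^ k * (t + η * α))
          rw [abs_of_pos (by norm_num : (0 : ℝ) < 4)]
          linarith
      · refine Eventually.of_forall fun α => ?_
        have e5 : a₀ - (2 : ℝ) ^ k * t - s * α = a₀ - (2 : ℝ) ^ k * (t + η * α) := by
          rw [hsη]; ring
        simp only
        rw [e5]
        exact inner_le gt hgtm K hK hgt0 m s b₀ ((2 : ℝ) ^ k * φ t)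
          (a₀ - (2 : ℝ) ^ k * (t + η * α)) hspos h2s hd0 hds
    rw [integral_const_mul] at e4
    calc C₀ * _ ≤ C₀ * (4 * ∫ α in Icc (-1 : ℝ) 1,
          Aa gt m b₀ (a₀ - (2 : ℝ) ^ k * (t + η * α))) := mul_le_mul_of_nonneg_left e4 hC₀.le
      _ = _ := by ring
  -- integrate in t
  have hρf : Measurable (fun w : ℝ => Aa gt m b₀ (a₀ - (2 : ℝ) ^ k * w)) := hAm.comp (by fun_prop)
  have eR := rho_int τ m₀ n (fun w => Aa gt m b₀ (a₀ - (2 : ℝ) ^ k * w)) hρf K (fun w => hAabs _)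
  have hfinρ : IsFiniteMeasure (rho τ m₀ n) := by
    unfold rho; infer_instance
  have step1 : Av (nu P u v φ τ n) ((2 : ℝ) ^ k) (Sm s g) x ≤
      4 * C₀ * ∫ w, Aa gt m b₀ (a₀ - (2 : ℝ) ^ k * w) ∂(rho τ m₀ n) := by
    rw [eL, eR, ← integral_const_mul]
    apply integral_mono_of_nonneg
    · refine Eventually.of_forall fun t => ?_
      exact integral_nonneg fun z => mul_nonneg (hph0 _) (h0 _)
    · apply Integrable.const_mul
      have h5 : Integrable (fun w : ℝ × ℝ => Aa gt m b₀ (a₀ - (2 : ℝ) ^ k * (w.1 + η * w.2)))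
          ((volume.restrict (Icc (τ (n + 1)) (τ n))).prod (volume.restrict (Icc (-1 : ℝ) 1))) :=
        int_of_bdd (hAm.comp (by fun_prop)) K (fun w => hAabs _)
      exact h5.integral_prod_left
    · exact (ae_restrict_iff' measurableSet_Icc).2 (Eventually.of_forall hpt)
  -- averages over shifts
  have hBm := Bb_meas gt hgtm m b₀
  have hBb : ∀ a σ, |Bb gt m b₀ a σ| ≤ K := by
    intro a σ
    have h6 := hEB.2.2.2.2.1 m (fun z => gt (z.1, z.2 - σ)) K (a, b₀ + σ) (BR_shift gt hgtBR σ)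
      (fun w => hK _)
    exact h6
  have step2 : ∀ a, Aa gt m b₀ a ≤ 2 * (((2 : ℝ) ^ M)⁻¹ *
      ∫ σ in Icc (0 : ℝ) ((2 : ℝ) ^ M), Bb gt m b₀ a σ) := by
    intro a
    exact hAVG m M hmM (fun y => gt (a, y)) ((hEB.1 gt hgtBR).1 a) (fun y => hgt0 _) b₀
  have hIcc : IsFiniteMeasure (volume.restrict (Icc (0 : ℝ) ((2 : ℝ) ^ M))) := inferInstance
  have hpm : Measurable (fun q : ℝ × ℝ => Bb gt m b₀ (a₀ - (2 : ℝ) ^ k * q.1) q.2) :=
    hBm.comp (Measurable.prodMk (by fun_prop) measurable_snd)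
  have hpi : Integrable (fun q : ℝ × ℝ => Bb gt m b₀ (a₀ - (2 : ℝ) ^ k * q.1) q.2)
      ((rho τ m₀ n).prod (volume.restrict (Icc (0 : ℝ) ((2 : ℝ) ^ M)))) :=
    int_of_bdd hpm K (fun q => hBb _ _)
  have step3 : ∫ w, Aa gt m b₀ (a₀ - (2 : ℝ) ^ k * w) ∂(rho τ m₀ n) ≤
      2 * (((2 : ℝ) ^ M)⁻¹ * ∫ σ in Icc (0 : ℝ) ((2 : ℝ) ^ M),
        ∫ w, Bb gt m b₀ (a₀ - (2 : ℝ) ^ k * w) σ ∂(rho τ m₀ n)) := by
    rw [← integral_integral_swap hpi, ← integral_const_mul, ← integral_const_mul]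
    apply integral_mono (int_of_bdd hρf K (fun w => hAabs _))
    · exact (hpi.integral_prod_left.const_mul _).const_mul _
    · intro w
      exact step2 _
  have step4 : ∀ σ, Vn τ m₀ k n (fun z => g (z.1 • u + (z.2 - σ) • v)) (a₀, b₀ + σ) =
      ∫ w, Bb gt m b₀ (a₀ - (2 : ℝ) ^ k * w) σ ∂(rho τ m₀ n) := fun σ => rfl
  simp only [step4]
  calc Av (nu P u v φ τ n) ((2 : ℝ) ^ k) (Sm s g) x
      ≤ 4 * C₀ * ∫ w, Aa gt m b₀ (a₀ - (2 : ℝ) ^ k * w) ∂(rho τ m₀ n) := step1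
    _ ≤ 4 * C₀ * (2 * (((2 : ℝ) ^ M)⁻¹ * ∫ σ in Icc (0 : ℝ) ((2 : ℝ) ^ M),
        ∫ w, Bb gt m b₀ (a₀ - (2 : ℝ) ^ k * w) σ ∂(rho τ m₀ n))) :=
        mul_le_mul_of_nonneg_left step3 (by positivity)
    _ = _ := by ring

end Pool.Agent.Helper71.LM2
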